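import Pool.Agent.H317.GR.StmA
import Pool.Graph.R_pool_sql_team_seeded_ab47071d.TH610.CSP.Main
import Pool.Graph.R_pool_sql_team_seeded_ab47071d.TH567.PR.Rep

/-!
Project GR (helper317), part FAC, by helper825: finite quotients are congruence quotients.
-/

set_option autoImplicit false

namespace Pool.Agent.H825.GR

open Matrix Pool.Agent.H317.GR

theorem finite_hom (G Q : Type) [Group G] [Group.FG G] [Group Q] [Finite Q] : Finite (G →* Q) := by
  obtain ⟨S, hS⟩ := Group.FG.out (G := G)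
  refine Finite.of_injective (fun (φ : G →* Q) (s : S) => φ s) ?_
  intro φ ψ h
  exact MonoidHom.eq_of_eqOn_dense hS (fun s hs => congrFun h ⟨s, hs⟩)

theorem core {S L R Q : Type} [Group S] [Group L] [Group R] [Group Q] [Finite Q] [Group.FG L]
    (r : S →* R) (hr : Function.Surjective r) (hk : ∀ φ : S →* Q, r.ker ≤ φ.ker)
    (hcard : Nat.card (L →* Q) ≤ Nat.card (S →* Q)) (f : L →* R) (hf : Function.Surjective f)
    (φ : L →* Q) : f.ker ≤ φ.ker := by
  have hfin1 : Finite (L →* Q) := finite_hom L Q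
  have h1 : Function.Bijective (fun θ : R →* Q => θ.comp r) := by
    constructor
    · intro θ θ' h
      refine MonoidHom.ext fun x => ?_
      obtain ⟨s, rfl⟩ := hr x
      exact DFunLike.congr_fun h s
    · intro ψ
      exact ⟨r.liftOfSurjective hr ⟨ψ, hk ψ⟩, MonoidHom.liftOfRightInverse_comp _ _ _ _⟩
  have h2 : Nat.card (R →* Q) = Nat.card (S →* Q) := Nat.card_congr (Equiv.ofBijective _ h1)
  have h3 : Function.Injective (fun θ : R →* Q => θ.comp f) := by
    intro θ θ' h
    refine MonoidHom.ext fun x => ?_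
    obtain ⟨s, rfl⟩ := hf x
    exact DFunLike.congr_fun h s
  have h4 := (h3.bijective_of_nat_card_le (by rw [h2]; exact hcard)).2
  obtain ⟨θ, hθ⟩ := h4 φ
  intro x hx
  rw [MonoidHom.mem_ker] at hx ⊢
  rw [← hθ, MonoidHom.comp_apply, hx, map_one]

theorem fac : S_HOM → S_SRJ → S_FAC := by
  intro hHOM hSRJ n hn Λ _ _ hQ Q _ _
  have hfg : Group.FG (SZ n) := Pool.Agent.TH567.PR.fg_SL (ι := Fin n) (by
    rw [Fintype.card_fin]; omega)
  have hfin : Finite (SZ n →* Q) := finite_hom (SZ n) Q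
  obtain ⟨H, hH⟩ : ∃ H : Subgroup (SZ n), H = ⨅ φ : SZ n →* Q, φ.ker := ⟨_, rfl⟩
  have hHf : H.FiniteIndex := by
    rw [hH]
    exact Subgroup.finiteIndex_iInf fun φ => inferInstance
  obtain ⟨M, hM, hcong⟩ := Pool.Agent.TH610.CSP.csp n hn H hHf
  refine ⟨M, hM, fun f hf φ => ?_⟩
  refine core (SpecialLinearGroup.map (n := Fin n) (Int.castRingHom (ZMod M))) (hSRJ n M hM) ?_
    (hHOM Λ (SZ n) hQ Q) f hf φ
  intro ψ A hA
  have h1 : A ∈ H := by
    refine hcong A fun i j => ?_
    rw [MonoidHom.mem_ker] at hA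
    have h2 := congrArg (fun B : SpecialLinearGroup (Fin n) (ZMod M) => B.1 i j) hA
    have h3 : ((A.1 i j : ℤ) : ZMod M) = ((1 : Matrix (Fin n) (Fin n) ℤ) i j : ℤ) := by
      have h4 : (SpecialLinearGroup.map (n := Fin n) (Int.castRingHom (ZMod M)) A).1 i j =
          ((A.1 i j : ℤ) : ZMod M) := rfl
      have h5 : (1 : SpecialLinearGroup (Fin n) (ZMod M)).1 i j =
          (((1 : Matrix (Fin n) (Fin n) ℤ) i j : ℤ) : ZMod M) := by
        change (1 : Matrix (Fin n) (Fin n) (ZMod M)) i j = _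
        rw [Matrix.one_apply, Matrix.one_apply]
        split <;> simp
      rw [← h4, ← h5]
      exact h2
    have h6 : ((A.1 i j - (1 : Matrix (Fin n) (Fin n) ℤ) i j : ℤ) : ZMod M) = 0 := by
      rw [Int.cast_sub, h3, sub_self]
    exact (ZMod.intCast_zmod_eq_zero_iff_dvd _ M).mp h6
  rw [hH] at h1
  exact (Subgroup.mem_iInf.mp h1) ψ

end Pool.Agent.H825.GR
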